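import Pool.Agent.MP_14ad8d_gt.Sq.Defs
import Pool.Agent.MP_14ad8d_gt.Sq.OmegaB

open Filter Topology Pool.Agent.MP_14ad8d_gt.Sq

namespace Pool.Agent.Results.MP_14ad8d_gt.CountablePower

theorem result :
    ∃ (G : Type) (_ : AddCommGroup G) (_ : TopologicalSpace G),
      IsTopologicalAddGroup G ∧ T2Space G ∧ (∀ g : G, g + g = 0) ∧
      CountablyCompactSpace (ℕ → G) ∧ (∀ ι : Type, SelectivelyPseudocompact (ι → G)) ∧
      SelectivelyPseudocompact G ∧
      ∀ p : Ultrafilter ℕ, (p : Filter ℕ) ≤ cofinite → ¬ StronglyPseudocompact p G := by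
  refine ⟨GrpO, inferInstance, inferInstance, inferInstance, inferInstance, GrpO.add_self,
    countablyCompactO, selective_pow countablyCompactO, fun U hU => ?_, not_stronglyO⟩
  choose x hx using fun n => (hU n).2
  obtain ⟨y, -, hy⟩ := countablyCompactO.isCountablyCompact_univ.seq_clusterPt
    (fun n _ => x n) (Eventually.of_forall fun _ => Set.mem_univ _)
  exact ⟨x, hx, y 0, hy.continuousAt_comp (continuous_apply 0).continuousAt⟩

end Pool.Agent.Results.MP_14ad8d_gt.CountablePower
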