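import Pool.Agent.MP_14ad8d_gt.Sq.Defs
import Pool.Agent.MP_14ad8d_gt.Sq.Grp

open Filter Topology Pool.Agent.MP_14ad8d_gt.Sq

namespace Pool.Agent.Results.MP_14ad8d_gt.FinitePowers

theorem result (k : ℕ) (hk : 1 ≤ k) :
    ∃ (G : Type) (_ : AddCommGroup G) (_ : TopologicalSpace G),
      IsTopologicalAddGroup G ∧ T2Space G ∧ (∀ g : G, g + g = 0) ∧
      CountablyCompactSpace (Fin k → G) ∧ ¬ SelectivelyPseudocompact (Fin (k + 1) → G) ∧
      SelectivelyPseudocompact G ∧
      ∀ p : Ultrafilter ℕ, (p : Filter ℕ) ≤ cofinite → ¬ StronglyPseudocompact p G := by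
  refine ⟨Grp k, inferInstance, inferInstance, inferInstance, inferInstance, Grp.add_self,
    countablyCompact, fun h => ?_, fun U hU => ?_, fun p hp h => ?_⟩
  · obtain ⟨x, hx, y, hy⟩ := h (fun n => {g | ∀ i : Fin (k + 1), g i ∈ Op k (n * (k + 1) + i)})
      fun n => ⟨by
        rw [Set.ofPred_forall]
        exact isOpen_iInter_of_finite fun i => (isOpen_Op _).preimage (continuous_apply i),
        fun i => ⟨_, _, rfl⟩, fun i => base_mem_Op _⟩
    exact no_cluster x hx y hy
  · choose x hx using fun n => (hU n).2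
    obtain ⟨y, -, hy⟩ := (countablyCompact (k := k)).isCountablyCompact_univ.seq_clusterPt
      (fun n _ => x n) (Eventually.of_forall fun _ => Set.mem_univ _)
    exact ⟨x, hx, y ⟨0, hk⟩, hy.continuousAt_comp (continuous_apply (⟨0, hk⟩ : Fin k)).continuousAt⟩
  · choose x hx y hy using fun i : Fin (k + 1) => h (fun n => Op k (n * (k + 1) + i))
      fun n => ⟨isOpen_Op _, _, base_mem_Op _⟩
    refine no_cluster (fun n i => x i n) (fun n i => hx i n) y ?_
    exact (tendsto_pi_nhds.2 hy).mapClusterPt.mono (hp.trans Nat.cofinite_eq_atTop.le)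

end Pool.Agent.Results.MP_14ad8d_gt.FinitePowers
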