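import Pool.Agent.MP_14ad8d_gt.Sq.Defs
import Pool.Agent.MP_14ad8d_gt.Sq.Pos

open Filter Topology Pool.Agent.MP_14ad8d_gt.Sq

namespace Pool.Agent.Results.MP_14ad8d_gt.PowersPositive

theorem result (G : Type) [Group G] [TopologicalSpace G] [IsTopologicalGroup G] :
    List.TFAE [∀ k : ℕ, SelectivelyPseudocompact (Fin k → G),
      ∀ ι : Type, SelectivelyPseudocompact (ι → G),
      ∀ U : ℕ → ℕ → Set G, (∀ i n, IsOpen (U i n) ∧ (U i n).Nonempty) →
        ∃ p : Ultrafilter ℕ, (p : Filter ℕ) ≤ cofinite ∧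
          ∀ i, ∃ x : ℕ → G, (∀ n, x n ∈ U i n) ∧ ∃ y : G, Tendsto x (p : Filter ℕ) (𝓝 y)] := by
  tfae_have 1 → 3 := fun h U hU => by
    obtain ⟨x, hx, y, hy⟩ := countable_family h U hU
    obtain ⟨p, hp, ht⟩ := mapClusterPt_iff_ultrafilter.1 hy
    exact ⟨p, hp.trans Nat.cofinite_eq_atTop.ge, fun i =>
      ⟨fun n => x n i, fun n => hx n i, y i, tendsto_pi_nhds.1 ht i⟩⟩
  tfae_have 3 → 2 := pow_of_family
  tfae_have 2 → 1 := fun h k => h _
  tfae_finish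

end Pool.Agent.Results.MP_14ad8d_gt.PowersPositive
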